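import Pool.Agent.Helper54_LQX.All
import Pool.Agent.Helper77_LQZ.LMB
import Pool.Agent.Helper21_LQZ.XTU
import Pool.Agent.Helper92_LQZ.XJT
import Pool.Agent.Helper15_LQZ.XNB
import Pool.Agent.Helper44_LQZ.THC
import Pool.Agent.Helper52_LQZ.WFU
import Pool.Agent.Helper69_LQZ.IMM
import Pool.Agent.Helper38_LQZ.IXI
import Pool.Agent.Helper63_LQZ.IXU
import Pool.Agent.Helper1_LQZ.MOM
import Pool.Agent.Helper16_LQZ.NNU
import Pool.Agent.Helper17_LQZ.RSJ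
import Pool.Agent.Helper38_LQZ.GOD
import Pool.Agent.Helper2_LQZ.UPA
import Pool.Agent.Helper44_LQZ.UPB
import Pool.Agent.Helper1_LQZ.UPC
import Pool.Agent.Helper56_LQZ.UPD
import Pool.Agent.Helper72_LQZ.UPE
import Pool.Agent.Helper19_LQZ.USM
import Pool.Agent.Helper3_LQZ.UPR
import Pool.Agent.Helper13_LQZ.OUT
import Pool.Agent.Helper84_LQZ.INI
import Pool.Agent.Helper13_LQZ.TOF
import Pool.Agent.Helper60_LQZ.CPZ
import Pool.Agent.Helper76_LQZ.QZF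

/-!
# The flow for all energies of the bulk: assembly
-/

set_option autoImplicit false

open MeasureTheory ProbabilityTheory

noncomputable section

namespace Pool.Agent.LE.QZ.H54

open Pool.Agent.BED Pool.Agent.LE.CL Pool.Agent.LE.IR Pool.Agent.LE.QD Pool.Agent.LE.QF

theorem lmbT : QZ.LmbStmt := QZ.H77L.lmb QF.H81.nrb

theorem xtuT : QZ.XtuStmt := QZ.H21.xtu QX.H54.ytjT QX.H54.jalT

theorem xjtT : QZ.XjtStmt := QZ.H92.xjt QX.H54.jalT QX.H54.jmaT QX.H54.jtbT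

theorem wfuT : QZ.WfuStmt := QZ.H52.wfu QF.H81.nrb

theorem immT : QZ.ImmStmt := QZ.H69.imm QX.H54.khbT QD.H93.ralT

theorem ixiT : QZ.IxiStmt := QZ.H38.ixi QD.H93.ralT IR.H54.ftb

theorem ixuT : QZ.IxuStmt := QZ.H63.ixu QD.H93.ralT QX.H54.kftT

theorem nnuT : QZ.NnuStmt := QZ.H16.nnu QF.H20.wab

theorem rsjT : QZ.RsjStmt := QZ.H17.rsj QX.H54.jalT QX.H54.jmaT

theorem godT : QZ.GodStmt := QZ.H38.god nnuT rsjT QF.H2.gdc QZ.H44.thc QF.H20.wab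

theorem upaT : QZ.UpaStmt :=
  QZ.H2.upa QX.H54.jtpT QX.H54.jtxT QX.H54.phbT QX.H54.xhbT QX.H54.pwuT rsjT

theorem upbT : QZ.UpbStmt := QZ.H44.upb xjtT QF.H81.nrb QZ.H15.xnb xtuT rsjT

theorem upcT : QZ.UpcStmt := QZ.H1.upc QX.H54.jtlT lmbT QX.H54.lmuT rsjT

theorem updT : QZ.UpdStmt := QZ.H56.upd QX.H54.jtbT QX.H54.wfbT QX.H54.wtuT rsjT nnuT

theorem upeT : QZ.UpeStmt := QZ.H72.upe QX.H54.jtbT QX.H54.jalT wfuT rsjT

theorem usmT : QZ.UsmStmt := QZ.H19.usm QX.H54.jmaT QF.H20.wab nnuT rsjT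

theorem uprT : QZ.UprStmt :=
  QZ.H3.upr QX.H54.uflT usmT nnuT godT upaT upbT upcT updT upeT QF.H20.wab

theorem outT : QZ.OutStmt := QZ.H13.out godT QF.H20.wab nnuT

theorem iniT : QZ.IniStmt :=
  QZ.H84.ini QX.H54.mbrT QX.H54.frbT QX.H54.galT QX.H54.khbT QX.H54.inmT QX.H54.inwT QX.H54.mssT
    QX.H54.kftT QD.H93.ralT ixiT ixuT immT

theorem tofT : QZ.TofStmt := QZ.H13.tof iniT uprT outT QZ.H1.mom QD.H93.ralT

theorem cpzT : QZ.CpzStmt := QZ.H60.cpz tofT QD.H23.gro (QD.H72.cls (QD.H59.hsc CL.H17.laq))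

theorem qzfT : QZ.QzfStmt := QZ.H76.qzf cpzT CL.H54.crgT

end Pool.Agent.LE.QZ.H54
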